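import Pool.Agent.H756.SB.Stm
import Pool.Agent.R560.OP.OpCon

/-!
# Project SB, package CON: eigenvalues of nonconstant eigenfunctions are at least one
-/

set_option autoImplicit false

namespace Pool.Agent.U928.SB

open Pool.Agent.R972.OP (WC)
open Pool.Agent.H756.SB Finset

variable {n : ℕ}

theorem rf_rf (N p q x : ℕ) (hp : p < 2 * N) (hq : q < 2 * N) (hx : x < 2 * N) :
    rf N p q (rf N p q x) = x := by
  unfold rf
  split_ifs <;> omega

theorem mvs_mvs {N : ℕ} {S : Fin n × Bool → Fin n × Bool → Prop} (i j : ℕ) (g : Fin n → ℕ)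
    (hg : g ∈ cfs N S) (hi : i < 2 * N) (hj : j < 2 * N) : mvs N i j (mvs N i j g) = g := by
  have h1 : ∀ a, g a < 2 * N := by
    classical
    intro a
    unfold cfs at hg
    have h2 := (mem_filter.1 hg).1
    exact mem_range.1 (Fintype.mem_piFinset.1 h2 a)
  funext a
  exact rf_rf N i j (g a) hi hj (h1 a)

theorem fold_sum (N : ℕ) (a : ℕ → ℝ) (d : ℕ → ℝ) (hN : 0 < N)
    (ha : ∀ k, k + 1 < 2 * N → a (2 * N - 2 - k) = a k) :
    ∑ k ∈ range N, a k * (d k + (if k + 1 = N then 0 else d (2 * N - 2 - k))) =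
      ∑ k ∈ range (2 * N - 1), a k * d k := by
  obtain ⟨m, rfl⟩ : ∃ m, N = m + 1 := ⟨N - 1, by omega⟩
  have e1 : 2 * (m + 1) - 1 = (m + 1) + m := by omega
  rw [e1, sum_range_add (fun k => a k * d k) (m + 1) m]
  have e2 : ∑ x ∈ range m, a (m + 1 + x) * d (m + 1 + x) =
      ∑ k ∈ range m, a k * d (2 * (m + 1) - 2 - k) := by
    rw [← sum_range_reflect]
    refine sum_congr rfl fun k hk => ?_
    have hk' := mem_range.1 hk
    have e3 : m + 1 + (m - 1 - k) = 2 * (m + 1) - 2 - k := by omega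
    rw [e3, ha k (by omega)]
  rw [e2]
  have e4 : ∀ k ∈ range (m + 1), a k * (d k + (if k + 1 = m + 1 then 0 else
      d (2 * (m + 1) - 2 - k))) = a k * d k + (if k + 1 = m + 1 then 0 else
      a k * d (2 * (m + 1) - 2 - k)) := by
    intro k _
    split_ifs <;> ring
  rw [sum_congr rfl e4, sum_add_distrib]
  congr 1
  rw [sum_range_succ, if_pos rfl, add_zero]
  refine sum_congr rfl fun k hk => ?_
  have hk' := mem_range.1 hk
  rw [if_neg (by omega)]

theorem t_CON : S_PT → S_CON := by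
  classical
  intro h n N S W c lam F hW heig hne
  set T : Finset ((Fin n → ℕ) × ℕ × ℕ) := (cfs N S ×ˢ (range (2 * N) ×ˢ range (2 * N))).filter
    fun x => x.2.1 < x.2.2 ∧ mvs N x.2.1 x.2.2 x.1 ∈ cfs N S with hT
  have memT : ∀ g i j, (g, i, j) ∈ T ↔ g ∈ cfs N S ∧ i < j ∧ j < 2 * N ∧ mvs N i j g ∈ cfs N S := by
    intro g i j
    simp only [hT, mem_filter, mem_product, mem_range]
    constructor
    · rintro ⟨⟨h1, h2, h3⟩, h4, h5⟩
      exact ⟨h1, h4, h3, h5⟩
    · rintro ⟨h1, h2, h3, h4⟩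
      exact ⟨⟨h1, h2.trans h3, h3⟩, h2, h4⟩
  obtain ⟨g0, hg0, k0, hk0, hm0, hF0⟩ := hne
  have h0T : (g0, k0, k0 + 1) ∈ T := (memT _ _ _).2 ⟨hg0, by omega, by omega, hm0⟩
  obtain ⟨⟨s0, i, j⟩, hsT, hmax⟩ := exists_max_image T
    (fun x => |F (mvs N x.2.1 x.2.2 x.1) - F x.1| / (W x.2.2 - W x.2.1)) ⟨_, h0T⟩
  obtain ⟨hs0, hij, hj, ht0⟩ := (memT _ _ _).1 hsT
  set M : ℝ := |F (mvs N i j s0) - F s0| / (W j - W i) with hM
  have hWij : 0 < W j - W i := sub_pos.2 (Pool.Agent.R560.OP.W_lt hW.wc hij hj)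
  have hMpos : 0 < M := by
    have h1 := hmax _ h0T
    have h2 : 0 < |F (mvs N k0 (k0 + 1) g0) - F g0| / (W (k0 + 1) - W k0) :=
      div_pos (abs_pos.2 (sub_ne_zero.2 hF0)) (sub_pos.2 (hW.wc.mono _ (by omega)))
    exact lt_of_lt_of_le h2 h1
  have hLip : ∀ g ∈ cfs N S, ∀ i j, i < j → j < 2 * N → mvs N i j g ∈ cfs N S →
      |F (mvs N i j g) - F g| ≤ M * (W j - W i) := by
    intro g hg i' j' hij' hj' hm'
    have h1 := hmax _ ((memT g i' j').2 ⟨hg, hij', hj', hm'⟩)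
    have hpos : 0 < W j' - W i' := sub_pos.2 (Pool.Agent.R560.OP.W_lt hW.wc hij' hj')
    exact (div_le_iff₀ hpos).1 h1
  have hD0 : |F (mvs N i j s0) - F s0| = M * (W j - W i) := by
    rw [hM, div_mul_cancel₀ _ hWij.ne']
  obtain ⟨s, hs, ht, hD⟩ : ∃ s ∈ cfs N S, mvs N i j s ∈ cfs N S ∧
      F (mvs N i j s) - F s = M * (W j - W i) := by
    rcases le_total 0 (F (mvs N i j s0) - F s0) with hc | hc
    · exact ⟨s0, hs0, ht0, by rw [← hD0, abs_of_nonneg hc]⟩
    · have h1 := mvs_mvs i j s0 hs0 (hij.trans hj) hj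
      refine ⟨mvs N i j s0, ht0, by rwa [h1], ?_⟩
      rw [h1, ← hD0, abs_of_nonpos hc]
      ring
  have hsym : ∀ k, k + 1 < 2 * N → M * (c (2 * N - 2 - k) *
      (W (2 * N - 2 - k + 1) - W (2 * N - 2 - k))) = M * (c k * (W (k + 1) - W k)) := by
    intro k hk
    have h1 := hW.ws k (by omega)
    have h2 := hW.ws (k + 1) hk
    have e1 : 2 * N - 2 - k + 1 = 2 * N - 1 - k := by omega
    have e2 : 2 * N - 2 - k = 2 * N - 1 - (k + 1) := by omega
    rw [hW.cs k hk, e1, h1, e2, h2]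
    ring
  have hsum : LLs N S c F (mvs N i j s) - LLs N S c F s ≤ M * (((if j + 1 < 2 * N then
      c j * (W (j + 1) - W j) else 0) - c (j - 1) * (W (j - 1 + 1) - W (j - 1))) -
      (c i * (W (i + 1) - W i) - (if 0 < i then c (i - 1) * (W (i - 1 + 1) - W (i - 1))
        else 0))) := by
    rw [← Pool.Agent.R560.OP.sum_eq (2 * N) (fun k => c k * (W (k + 1) - W k)) M i j hij hj]
    have h1 := fold_sum N (fun k => M * (c k * (W (k + 1) - W k))) (de i j) (by omega) hsym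
    unfold de at h1
    rw [← h1]
    unfold LLs
    rw [← sum_sub_distrib]
    refine sum_le_sum fun k hk => ?_
    exact h n N S W c F M hW hMpos.le hLip s hs i j hij hj ht hD k (mem_range.1 hk)
  have ej := hW.wc.eq j hj
  have ei := hW.wc.eq i (hij.trans hj)
  rw [if_pos (by omega : 0 < j)] at ej
  rw [if_pos (by omega : i + 1 < 2 * N)] at ei
  have hj1 : j - 1 + 1 = j := by omega
  rw [hj1] at hsum
  have hi1 : (if 0 < i then c (i - 1) * (W (i - 1 + 1) - W (i - 1)) else 0) =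
      (if 0 < i then c (i - 1) * (W i - W (i - 1)) else 0) := by
    by_cases hi : 0 < i
    · rw [if_pos hi, if_pos hi, Nat.sub_add_cancel hi]
    · rw [if_neg hi, if_neg hi]
  rw [hi1, ej, ei, heig _ ht, heig _ hs] at hsum
  have hDpos : 0 < M * (W j - W i) := mul_pos hMpos hWij
  have h3 : -lam * (M * (W j - W i)) ≤ -1 * (M * (W j - W i)) := by
    rw [← hD]
    rw [← hD] at hDpos
    have h4 : M * (0 - W j - (0 - W i)) = -(F (mvs N i j s) - F s) := by rw [hD]; ring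
    rw [h4] at hsum
    linarith
  nlinarith [le_of_mul_le_mul_right h3 hDpos]

end Pool.Agent.U928.SB
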